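import Pool.Agent.N637.SLK.Lin
import Pool.Agent.N75.SLX.Mass

/-!
# Project SLK (helper637), part MASS: the joint law is a probability law (helper222)
-/

set_option autoImplicit false

open scoped Classical

namespace Pool.Agent.N222.SLK

open Finset Filter Topology
open Pool.Agent.N637.SLK
open Pool.Agent.N637.SLX (alt gl)
open Pool.Agent.N75.SLX (qp et tm qp_pos et_pos et_le tail gl_eq sum_alt alt_zero tm_hasSum)

theorem gl_one (r : ℕ) : (1 : ℝ) ≤ (gl r : ℝ) := by
  have : 0 < gl r := by
    unfold gl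
    apply Finset.prod_pos
    intro i hi
    have := Nat.pow_lt_pow_right (a := 2) (by norm_num) (Finset.mem_range.1 hi)
    omega
  exact_mod_cast this

theorem alt_le (r j : ℕ) : alt r j ≤ 2 ^ (r * (r - 1) / 2) := by
  rcases Nat.lt_or_ge r j with h | h
  · rw [alt_zero h]
    positivity
  · rw [← sum_alt r]
    exact Finset.single_le_sum (fun i _ => Nat.zero_le (alt r i)) (Finset.mem_range.2 (by omega))

variable {k : ℕ}

theorem law_mem (r : ℕ) (j : Fin k → ℕ) : 0 ≤ lawF r j ∧ lawF r j ≤ 1 := by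
  unfold lawF
  rw [tail]
  have h1 : 0 ≤ et / qp r := by
    have := et_pos
    have := qp_pos r
    positivity
  have h2 : et / qp r ≤ 1 := by
    rw [div_le_one (qp_pos r)]
    exact et_le r
  have h3 : 0 ≤ ∏ i, (alt r (j i) : ℝ) / 2 ^ (r * (r - 1) / 2) :=
    Finset.prod_nonneg fun i _ => by positivity
  have h4 : ∏ i, (alt r (j i) : ℝ) / 2 ^ (r * (r - 1) / 2) ≤ 1 := by
    apply Finset.prod_le_one
    · intro i _
      positivity
    · intro i _
      rw [div_le_one (by positivity)]
      exact_mod_cast alt_le r (j i)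
  have hg := gl_one r
  have h5 : 0 ≤ (∏ i, (alt r (j i) : ℝ) / 2 ^ (r * (r - 1) / 2)) / (gl r : ℝ) := by positivity
  have h6 : (∏ i, (alt r (j i) : ℝ) / 2 ^ (r * (r - 1) / 2)) / (gl r : ℝ) ≤ 1 := by
    rw [div_le_one (by positivity)]
    exact h4.trans hg
  exact ⟨mul_nonneg h5 h1, mul_le_one₀ h6 h1 h2⟩

theorem law_sum (r : ℕ) : ∑ j ∈ Fintype.piFinset (fun _ : Fin k => range (r + 1)), lawF r j =
    et * tm r := by
  have h0 : ∀ j ∈ Fintype.piFinset (fun _ : Fin k => range (r + 1)), lawF r j =
      (∏ i, (alt r (j i) : ℝ) / 2 ^ (r * (r - 1) / 2)) * (1 / (gl r : ℝ) * (et / qp r)) := by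
    intro j _
    unfold lawF
    rw [tail]
    ring
  rw [sum_congr rfl h0, ← sum_mul,
    ← Finset.prod_univ_sum (fun _ : Fin k => range (r + 1))
      (fun _ j => (alt r j : ℝ) / 2 ^ (r * (r - 1) / 2))]
  have h1 : ∑ j ∈ range (r + 1), (alt r j : ℝ) / 2 ^ (r * (r - 1) / 2) = 1 := by
    rw [← sum_div, div_eq_one_iff_eq (by positivity)]
    exact_mod_cast sum_alt r
  rw [Finset.prod_congr rfl (fun _ _ => h1), Finset.prod_const_one, one_mul, gl_eq, tm]
  have p := (qp_pos r).ne'
  have e : (1 / 2 : ℝ) ^ (r * r) = 1 / 2 ^ (r * r) := by rw [div_pow, one_pow]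
  rw [e]
  field_simp

theorem fib (r : ℕ) : HasSum (fun s : Fin k → ℕ => plF (r, s)) (et * tm r) := by
  rw [← law_sum (k := k)]
  have h1 : ∑ j ∈ Fintype.piFinset (fun _ : Fin k => range (r + 1)), lawF r j =
      ∑ s ∈ Fintype.piFinset (fun _ : Fin k => Icc r (2 * r)), plF (r, s) := by
    refine sum_bij' (fun j _ i => r + j i) (fun s _ i => s i - r) ?_ ?_ ?_ ?_ ?_
    · intro j hj
      rw [Fintype.mem_piFinset] at hj ⊢
      intro i
      have := mem_range.1 (hj i)
      rw [mem_Icc]
      omega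
    · intro s hs
      rw [Fintype.mem_piFinset] at hs ⊢
      intro i
      have := mem_Icc.1 (hs i)
      rw [mem_range]
      omega
    · intro j hj
      funext i
      simp
    · intro s hs
      rw [Fintype.mem_piFinset] at hs
      funext i
      have := mem_Icc.1 (hs i)
      simp only
      omega
    · intro j hj
      rw [plF, if_pos (by intro i; simp)]
      simp
  rw [h1]
  refine hasSum_sum_of_ne_finset_zero fun s hs => ?_
  unfold plF
  split_ifs with h
  · simp only at h ⊢
    rw [Fintype.mem_piFinset] at hs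
    push Not at hs
    obtain ⟨i, hi⟩ := hs
    rw [mem_Icc, not_and_or] at hi
    have h2 := h i
    unfold lawF
    rw [Finset.prod_eq_zero (Finset.mem_univ i), zero_div, zero_mul]
    have h3 : alt r (s i - r) = 0 := alt_zero (by omega)
    show (alt r (s i - r) : ℝ) / 2 ^ (r * (r - 1) / 2) = 0
    rw [h3]
    simp
  · rfl

theorem t_MASS : S_MASS := by
  intro k
  refine ⟨law_mem, ?_⟩
  have hnn : 0 ≤ plF (k := k) := by
    intro a
    unfold plF
    split_ifs
    · exact (law_mem _ _).1
    · exact le_rfl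
  have hs : HasSum (fun r => et * tm r) 1 := by
    have h := tm_hasSum.mul_left et
    rwa [mul_one_div_cancel et_pos.ne'] at h
  have hsum : Summable (plF (k := k)) := by
    rw [summable_prod_of_nonneg hnn]
    refine ⟨fun r => (fib r).summable, ?_⟩
    simp only [(fib _).tsum_eq]
    exact hs.summable
  have ht : ∑' a, plF (k := k) a = 1 := by
    rw [hsum.tsum_prod]
    simp only [(fib _).tsum_eq]
    exact hs.tsum_eq
  rw [← ht]
  exact hsum.hasSum

end Pool.Agent.N222.SLK
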